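import Pool.Agent.W128.VA.Stm2

set_option autoImplicit false

namespace Pool.Agent.W735.VAMod

open Finset Pool.Agent.W128.VA

theorem cf_zero_zero : cf 0 0 = 1 := by simp [cf]

theorem cf_zero_succ (j : ℕ) : cf 0 (j + 1) = 0 := by
  simp [cf, Ring.choose_zero_succ]

theorem bi_zero_zero : bi 0 0 = 1 := by simp [bi]

theorem bi_zero (m : ℤ) : bi m 0 = 1 := by simp [bi]

theorem bi_one (m : ℤ) : bi m 1 = m := by simp [bi]

theorem bi_zero_succ (j : ℕ) : bi 0 (j + 1) = 0 := by
  simp [bi, Ring.choose_zero_succ]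

theorem choose_neg_one (j : ℕ) : Ring.choose (-1 : ℤ) j = (-1) ^ j := by
  induction j with
  | zero => simp
  | succ j ih =>
    have h := Ring.choose_succ_succ (-1 : ℤ) j
    rw [show (-1 : ℤ) + 1 = 0 by norm_num, Ring.choose_zero_succ, ih] at h
    rw [pow_succ]
    linarith

theorem choose_neg_two (j : ℕ) : Ring.choose (-2 : ℤ) j = (-1) ^ j * (j + 1) := by
  induction j with
  | zero => simp
  | succ j ih =>
    have h := Ring.choose_succ_succ (-2 : ℤ) j
    rw [show (-2 : ℤ) + 1 = -1 by norm_num, choose_neg_one, ih] at h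
    push_cast
    rw [pow_succ] at h ⊢
    linarith

theorem cf_neg_one (j : ℕ) : cf (-1) j = 1 := by
  simp only [cf, choose_neg_one]
  push_cast
  rw [← mul_pow]
  simp

theorem cf_neg_two (j : ℕ) : cf (-2) j = (j : ℂ) + 1 := by
  simp only [cf, choose_neg_two]
  push_cast
  rw [← mul_assoc, ← mul_pow]
  simp

section

variable {A : VOA} {M : Type*} [AddCommGroup M] [Module ℂ M] (X : AdmMod A M)

theorem trN (u : A.V) (w : M) (m : ℤ) : ∃ L : ℕ, ∀ j : ℕ, L ≤ j → X.Y u (m + j) w = 0 := by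
  obtain ⟨N, hN⟩ := X.trunc u w
  exact ⟨(N - m).toNat, fun j hj => hN _ (by omega)⟩

theorem sum_shrink {G : Type*} [AddCommMonoid G] (F : ℕ → G) (L L' : ℕ) (h : L ≤ L')
    (hF : ∀ j, L ≤ j → F j = 0) : ∑ j ∈ range L', F j = ∑ j ∈ range L, F j := by
  refine (Finset.sum_subset (fun j hj => ?_) fun j _ hj => hF j ?_).symm
  · simp only [mem_range] at hj ⊢; omega
  · simpa using hj

theorem comm (u v : A.V) (w : M) (m n : ℤ) (L : ℕ) (hL : ∀ j : ℕ, L ≤ j → A.Y u j v = 0) :
    X.Y u m (X.Y v n w) - X.Y v n (X.Y u m w)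
      = ∑ j ∈ range L, bi m j • X.Y (A.Y u j v) (m + n - j) w := by
  obtain ⟨L1, h1⟩ := trN X v w n
  obtain ⟨L2, h2⟩ := trN X u w m
  have h := X.borcherds u v w 0 m n (L + L1 + L2 + 1) (fun j hj => by
    rw [zero_add]; exact hL j (by omega)) (fun j hj => h1 j (by omega))
    (fun j hj => h2 j (by omega))
  rw [sum_shrink _ L _ (by omega) (fun j hj => by rw [zero_add, hL j hj]; simp)] at h
  rw [sum_shrink (fun j => cf 0 j • _) 1 (L + L1 + L2 + 1) (by omega) (fun j hj => by
    obtain ⟨i, rfl⟩ : ∃ i, j = i + 1 := ⟨j - 1, by omega⟩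
    rw [cf_zero_succ, zero_smul])] at h
  rw [Finset.sum_range_one, cf_zero_zero, one_smul, zpow_zero, one_smul] at h
  simp only [Nat.cast_zero, add_zero, sub_zero, zero_add] at h
  rw [← h]

/-- `(u_(-1) v)_n` -/
theorem prodm (u v : A.V) (w : M) (n : ℤ) (L : ℕ)
    (hL : ∀ j : ℕ, 2 ≤ j → A.Y u (-1 + j) v = 0)
    (h1 : ∀ j : ℕ, L ≤ j → X.Y v (n + j) w = 0) (h2 : ∀ j : ℕ, L ≤ j → X.Y u j w = 0) :
    X.Y (A.Y u (-1) v) n w
      = ∑ j ∈ range L, (X.Y u (-1 - j) (X.Y v (n + j) w) + X.Y v (n - 1 - j) (X.Y u j w)) := by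
  have h := X.borcherds u v w (-1) 0 n (L + 2) (fun j hj => hL j (by omega))
    (fun j hj => h1 j (by omega)) (fun j hj => by rw [zero_add]; exact h2 j (by omega))
  rw [sum_shrink (fun j => bi 0 j • _) 1 (L + 2) (by omega) (fun j hj => by
    obtain ⟨i, rfl⟩ : ∃ i, j = i + 1 := ⟨j - 1, by omega⟩
    rw [bi_zero_succ, zero_smul])] at h
  rw [Finset.sum_range_one, bi_zero_zero, one_smul] at h
  simp only [Nat.cast_zero, add_zero, sub_zero, zero_add, cf_neg_one, one_smul] at h
  rw [h, sum_shrink _ L (L + 2) (by omega) (fun j hj => by rw [h1 j hj, h2 j hj]; simp)]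
  refine Finset.sum_congr rfl fun j _ => ?_
  rw [zpow_neg_one, show ((-1 : ℂ))⁻¹ = -1 by norm_num, neg_one_smul, sub_neg_eq_add]
  rfl

/-- `(u_(-2) 1)_n` -/
theorem transl (u : A.V) (w : M) (n : ℤ) :
    X.Y (A.Y u (-2) A.one) n w = (-(n : ℂ)) • X.Y u (n - 1) w := by
  obtain ⟨L2, h2⟩ := trN X u w 0
  have h := X.borcherds u A.one w (-2) 0 n (L2 + n.natAbs + 2) (fun j hj => A.create' _ _ (by omega))
    (fun j hj => by rw [X.vac, if_neg (by omega)]) (fun j hj => h2 j (by omega))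
  rw [sum_shrink (fun j => bi 0 j • _) 1 (L2 + n.natAbs + 2) (by omega) (fun j hj => by
    obtain ⟨i, rfl⟩ : ∃ i, j = i + 1 := ⟨j - 1, by omega⟩
    rw [bi_zero_succ, zero_smul])] at h
  rw [Finset.sum_range_one, bi_zero_zero, one_smul] at h
  simp only [Nat.cast_zero, add_zero, sub_zero, zero_add, cf_neg_two] at h
  rw [h]
  rw [show ((-1 : ℂ)) ^ (-2 : ℤ) = 1 by norm_num]
  simp only [one_smul, X.vac, smul_sub, Finset.sum_sub_distrib]
  rcases lt_trichotomy n 0 with hn | hn | hn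
  · obtain ⟨k, rfl⟩ : ∃ k : ℕ, n = -(k : ℤ) - 1 := ⟨(-n - 1).toNat, by omega⟩
    rw [Finset.sum_eq_single_of_mem k (by simp only [mem_range]; omega) (fun j _ hj => by
      rw [if_neg (by omega)]; simp), Finset.sum_eq_zero (fun j _ => by
        rw [if_neg (by omega)]; simp), sub_zero, if_pos (by omega)]
    congr 2
    · push_cast; ring
    · ring_nf
  · subst hn
    rw [Finset.sum_eq_zero (fun j _ => by rw [if_neg (by omega)]; simp),
      Finset.sum_eq_zero (fun j _ => by rw [if_neg (by omega)]; simp)]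
    simp
  · obtain ⟨k, rfl⟩ : ∃ k : ℕ, n = (k : ℤ) + 1 := ⟨(n - 1).toNat, by omega⟩
    rw [Finset.sum_eq_zero (fun j _ => by rw [if_neg (by omega)]; simp),
      Finset.sum_eq_single_of_mem k (by simp only [mem_range]; omega) (fun j _ hj => by
      rw [if_neg (by omega)]; simp), if_pos (by omega), zero_sub, ← neg_smul]
    congr 2
    · push_cast; ring
    · ring_nf

end

theorem main.{u} : S_MOD.{u} := by
  intro A h e f S M _ _ X
  have hL1 : ∀ (u v : A.V), (∀ j : ℤ, 1 ≤ j → A.Y u j v = 0) → ∀ j : ℕ, 1 ≤ j → A.Y u j v = 0 :=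
    fun u v H j hj => H j (by omega)
  have hL2 : ∀ (u v : A.V), (∀ j : ℤ, 2 ≤ j → A.Y u j v = 0) → ∀ j : ℕ, 2 ≤ j → A.Y u j v = 0 :=
    fun u v H j hj => H j (by omega)
  refine
    { gr_neg := X.gr_neg
      gr_int := X.gr_internal
      hh := ?_
      he := ?_
      hf := ?_
      ef := ?_
      trh := fun w => X.trunc h w
      tre := fun w => X.trunc e w
      trf := fun w => X.trunc f w
      Te := ?_
      Tf := ?_
      dh := ?_
      de := ?_
      df := ?_ }
  · intro m n w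
    rw [comm X h h w m n 2 (hL2 _ _ S.hh), Finset.sum_range_succ, Finset.sum_range_one]
    simp only [Nat.cast_zero, Nat.cast_one, S.hh0, S.hh1, map_zero, map_smul, bi_one]
    simp only [Pi.zero_apply, Pi.smul_apply, LinearMap.zero_apply, LinearMap.smul_apply, smul_zero,
      zero_add, X.vac]
    by_cases hmn : m + n = 0
    · rw [if_pos (by omega), if_pos hmn, smul_smul, mul_comm]
    · rw [if_neg (by omega), if_neg hmn]; simp
  · intro m n w
    rw [comm X h e w m n 1 (hL1 _ _ S.he), Finset.sum_range_one]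
    simp only [Nat.cast_zero, S.he0, map_smul, bi_zero, one_smul, Pi.smul_apply,
      LinearMap.smul_apply, sub_zero]
  · intro m n w
    rw [comm X h f w m n 1 (hL1 _ _ S.hf), Finset.sum_range_one]
    simp only [Nat.cast_zero, S.hf0, map_smul, bi_zero, one_smul, Pi.smul_apply,
      LinearMap.smul_apply, sub_zero]
  · intro m n w
    rw [comm X e f w m n 2 (hL2 _ _ S.ef), Finset.sum_range_succ, Finset.sum_range_one]
    simp only [Nat.cast_zero, Nat.cast_one, S.ef0, S.ef1, bi_zero, bi_one, one_smul, sub_zero,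
      X.vac]
    by_cases hmn : m + n = 0
    · rw [if_pos (by omega), if_pos hmn]
    · rw [if_neg (by omega), if_neg hmn]; simp
  · intro n w L h1 h2
    rw [← transl X e w n, S.Te, prodm X h e w n L (fun j hj => S.he _ (by omega)) h1 h2]
  · intro n w L h1 h2
    rw [← transl X f w n, S.Tf, map_neg, Pi.neg_apply, LinearMap.neg_apply,
      prodm X h f w n L (fun j hj => S.hf _ (by omega)) h1 h2]
  · intro n d w hw
    have := X.deg 1 h S.wh n d w hw
    rwa [show d + 1 - n - 1 = d - n by ring] at this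
  · intro n d w hw
    have := X.deg 0 e S.we n d w hw
    rwa [show d + 0 - n - 1 = d - n - 1 by ring] at this
  · intro n d w hw
    have := X.deg 2 f S.wf n d w hw
    rwa [show d + 2 - n - 1 = d + 1 - n by ring] at this

end Pool.Agent.W735.VAMod
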